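import Mathlib

/-!
Definitions for the problem on Bhargava factorials of prime quadruplets versus twin primes.
-/

set_option autoImplicit false

namespace Pool.Agent.Lib.MP_38a930_nt

open Finset

/-- The set of twin primes: primes `p` such that `p + 2` or `p - 2` is prime. -/
def P2 : Set ℤ :=
  {x | ∃ p : ℕ, (p : ℤ) = x ∧ p.Prime ∧ ((p + 2).Prime ∨ ∃ q : ℕ, q.Prime ∧ q + 2 = p)}

/-- The set of primes occurring in some prime quadruplet `q, q+2, q+6, q+8` (all prime). -/
def P4 : Set ℤ :=
  {x | ∃ q : ℕ, q.Prime ∧ (q + 2).Prime ∧ (q + 6).Prime ∧ (q + 8).Prime ∧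
    (x = q ∨ x = q + 2 ∨ x = q + 6 ∨ x = q + 8)}

/-- `w p m` is the largest power of `p` dividing the nonzero integer `m`. -/
noncomputable def w (p : ℕ) (m : ℤ) : ℕ := p ^ multiplicity (p : ℤ) m

/-- `a 0, …, a n` are the first `n + 1` terms of a `p`-ordering of `X`: all lie in `X`, and each
`a k` is an element `x` of `X` that makes the power of `p` dividing `∏ i < k, (x - a i)` as small
as possible (the integer `0` being divisible by every power of `p`). -/
def IsPOrdering (X : Set ℤ) (p n : ℕ) (a : ℕ → ℤ) : Prop :=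
  ∀ k ≤ n, a k ∈ X ∧ ∀ x ∈ X,
    emultiplicity (p : ℤ) (∏ i ∈ range k, (a k - a i)) ≤
      emultiplicity (p : ℤ) (∏ i ∈ range k, (x - a i))

/-- `ν_n` of the `p`-ordering `a`: the largest power of `p` dividing `∏ i < n, (a n - a i)`. -/
noncomputable def nu (p n : ℕ) (a : ℕ → ℤ) : ℕ := w p (∏ i ∈ range n, (a n - a i))

/-- `N` is (a value of) the Bhargava factorial `n!_X`: for every prime `p` there is a `p`-ordering
of `X` (up to index `n`) such that only finitely many of the resulting numbers `ν_n` differ from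
`1` and `N` is the product of all of them. -/
def IsFactorial (X : Set ℤ) (n N : ℕ) : Prop :=
  ∃ a : ℕ → ℕ → ℤ, (∀ p : ℕ, p.Prime → IsPOrdering X p n (a p)) ∧
    {p : ℕ | p.Prime ∧ nu p n (a p) ≠ 1}.Finite ∧
    N = ∏ᶠ (p : ℕ) (_ : p.Prime), nu p n (a p)

/-- The value of `n!_{P4} / n!_{P2}` predicted by the conjecture: `3 * w_3(n)` for even `n`, and `1`
for odd `n`. -/
noncomputable def predicted (n : ℕ) : ℕ := if Even n then 3 * w 3 (n : ℤ) else 1

end Pool.Agent.Lib.MP_38a930_nt
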