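import Pool.Agent.Lib.MP_38a930_nt.Defs

set_option autoImplicit false

namespace Pool.Agent.Lib.MP_38a930_nt

open Finset

/-! ### General facts -/

lemma exists_pOrdering (X : Set ℤ) (hX : X.Nonempty) (p n : ℕ) :
    ∃ a : ℕ → ℤ, IsPOrdering X p n a := by
  induction n with
  | zero =>
    obtain ⟨x, hx⟩ := hX
    refine ⟨fun _ => x, ?_⟩
    intro k hk
    obtain rfl : k = 0 := by omega
    exact ⟨hx, fun y _ => by simp⟩
  | succ n ih =>
    obtain ⟨a, ha⟩ := ih
    -- choose the minimiser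
    let f : ℤ → ℕ∞ := fun x => emultiplicity (p : ℤ) (∏ i ∈ range (n + 1), (x - a i))
    obtain ⟨x, hxX, hx⟩ : ∃ x ∈ X, ∀ y ∈ X, f x ≤ f y := by
      have hne : (f '' X).Nonempty := hX.image f
      have hmem := WellFounded.min_mem (wellFounded_lt (α := ℕ∞)) (f '' X) hne
      obtain ⟨x, hxX, hx⟩ := hmem
      refine ⟨x, hxX, fun y hy => ?_⟩
      rw [hx]
      exact WellFounded.min_le (wellFounded_lt (α := ℕ∞)) (Set.mem_image_of_mem f hy)
    refine ⟨Function.update a (n + 1) x, ?_⟩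
    intro k hk
    have hprod : ∀ y : ℤ, ∏ i ∈ range k, (y - Function.update a (n + 1) x i) =
        ∏ i ∈ range k, (y - a i) := by
      intro y
      refine Finset.prod_congr rfl fun i hi => ?_
      have : i ≠ n + 1 := by
        have := Finset.mem_range.mp hi
        omega
      rw [Function.update_of_ne this]
    rcases Nat.lt_or_ge n k with h | h
    · obtain rfl : k = n + 1 := by omega
      refine ⟨by simpa using hxX, fun y hy => ?_⟩
      rw [hprod, hprod, Function.update_self]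
      exact hx y hy
    · have hk' : k ≠ n + 1 := by omega
      rw [Function.update_of_ne hk']
      refine ⟨(ha k h).1, fun y hy => ?_⟩
      rw [hprod, hprod]
      exact (ha k h).2 y hy

/-- If `X` has more than `n` elements that are pairwise incongruent mod `p`, then along every
`p`-ordering the products are prime to `p` up to index `n`. -/
lemma not_dvd_of_many (X : Set ℤ) (p : ℕ) (hp : p.Prime) (n : ℕ) (S : Finset ℤ)
    (hSX : ∀ x ∈ S, x ∈ X) (hcard : n < S.card)
    (hinj : ∀ x ∈ S, ∀ y ∈ S, (x : ZMod p) = (y : ZMod p) → x = y)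
    (a : ℕ → ℤ) (ha : IsPOrdering X p n a) :
    ∀ k ≤ n, ¬ ((p : ℤ) ∣ ∏ i ∈ range k, (a k - a i)) := by
  intro k hk hdvd
  have hpr : Prime (p : ℤ) := Nat.prime_iff_prime_int.mp hp
  -- find an element of S incongruent to all the a i, i < k
  obtain ⟨x, hxS, hx⟩ : ∃ x ∈ S, ∀ i < k, (x : ZMod p) ≠ (a i : ZMod p) := by
    by_contra hcon
    push Not at hcon
    have h1 : (S.image (fun x : ℤ => (x : ZMod p))) ⊆
        (range k).image (fun i => (a i : ZMod p)) := by
      intro z hz
      obtain ⟨x, hx, rfl⟩ := Finset.mem_image.mp hz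
      obtain ⟨i, hi, h⟩ := hcon x hx
      exact Finset.mem_image.mpr ⟨i, Finset.mem_range.mpr hi, h.symm⟩
    have h2 : (S.image (fun x : ℤ => (x : ZMod p))).card = S.card :=
      Finset.card_image_of_injOn (fun x hx y hy h => hinj x hx y hy h)
    have h3 := Finset.card_le_card h1
    have h4 : ((range k).image (fun i => (a i : ZMod p))).card ≤ k := by
      simpa using Finset.card_image_le (s := range k) (f := fun i => (a i : ZMod p))
    omega
  have hmin := (ha k hk).2 x (hSX x hxS)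
  have h0 : ¬ ((p : ℤ) ∣ ∏ i ∈ range k, (x - a i)) := by
    intro hd
    obtain ⟨i, hi, hd⟩ := (Prime.dvd_finsetProd_iff hpr _).mp hd
    apply hx i (Finset.mem_range.mp hi)
    have := (ZMod.intCast_zmod_eq_zero_iff_dvd (x - a i) p |>.mpr hd)
    rw [Int.cast_sub, sub_eq_zero] at this
    exact this
  rw [emultiplicity_eq_zero.mpr h0] at hmin
  have h5 : emultiplicity (p : ℤ) (∏ i ∈ range k, (a k - a i)) = 0 := le_antisymm hmin zero_le
  exact emultiplicity_eq_zero.mp h5 hdvd

lemma nu_eq_one (p n : ℕ) (a : ℕ → ℤ) (h : ¬ ((p : ℤ) ∣ ∏ i ∈ range n, (a n - a i))) :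
    nu p n a = 1 := by
  unfold nu w
  rw [multiplicity_eq_zero.mpr h, pow_zero]

/-! ### Explicit elements -/

/-- Thirty explicit elements of `P4`. -/
def S4 : Finset ℤ := {5, 7, 11, 13, 17, 19, 101, 103, 107, 109, 191, 193, 197, 199, 821, 823, 827,
  829, 1481, 1483, 1487, 1489, 1871, 1873, 1877, 1879, 2081, 2083, 2087, 2089}

/-- Twin primes in all residue classes modulo 29. -/
def S2 : Finset ℤ := {29, 59, 31, 3, 149, 5, 151, 7, 269, 241, 271, 11, 41, 13, 43, 73, 103, 17,
  569, 19, 107, 137, 109, 139, 227, 199, 229, 433, 347}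

lemma mem_P4_of (q : ℕ) (h0 : q.Prime) (h2 : (q + 2).Prime) (h6 : (q + 6).Prime)
    (h8 : (q + 8).Prime) : (q : ℤ) ∈ P4 ∧ (q : ℤ) + 2 ∈ P4 ∧ (q : ℤ) + 6 ∈ P4 ∧ (q : ℤ) + 8 ∈ P4 :=
  ⟨⟨q, h0, h2, h6, h8, Or.inl rfl⟩, ⟨q, h0, h2, h6, h8, Or.inr (Or.inl rfl)⟩,
    ⟨q, h0, h2, h6, h8, Or.inr (Or.inr (Or.inl rfl))⟩,
    ⟨q, h0, h2, h6, h8, Or.inr (Or.inr (Or.inr rfl))⟩⟩

lemma S4_subset : ∀ x ∈ S4, x ∈ P4 := by
  have a5 := mem_P4_of 5 (by norm_num) (by norm_num) (by norm_num) (by norm_num)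
  have a11 := mem_P4_of 11 (by norm_num) (by norm_num) (by norm_num) (by norm_num)
  have a101 := mem_P4_of 101 (by norm_num) (by norm_num) (by norm_num) (by norm_num)
  have a191 := mem_P4_of 191 (by norm_num) (by norm_num) (by norm_num) (by norm_num)
  have a821 := mem_P4_of 821 (by norm_num) (by norm_num) (by norm_num) (by norm_num)
  have a1481 := mem_P4_of 1481 (by norm_num) (by norm_num) (by norm_num) (by norm_num)
  have a1871 := mem_P4_of 1871 (by norm_num) (by norm_num) (by norm_num) (by norm_num)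
  have a2081 := mem_P4_of 2081 (by norm_num) (by norm_num) (by norm_num) (by norm_num)
  norm_num at a5 a11 a101 a191 a821 a1481 a1871 a2081
  intro x hx
  simp only [S4, Finset.mem_insert, Finset.mem_singleton] at hx
  rcases hx with h | h | h | h | h | h | h | h | h | h | h | h | h | h | h | h | h | h | h | h |
    h | h | h | h | h | h | h | h | h | h <;> subst h <;> tauto

lemma mem_P2_lower (p : ℕ) (h0 : p.Prime) (h2 : (p + 2).Prime) : (p : ℤ) ∈ P2 :=
  ⟨p, rfl, h0, Or.inl h2⟩

lemma mem_P2_upper (q : ℕ) (h0 : q.Prime) (h2 : (q + 2).Prime) : (q : ℤ) + 2 ∈ P2 :=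
  ⟨q + 2, by push_cast; rfl, h2, Or.inr ⟨q, h0, rfl⟩⟩

lemma mem_P2_both (q : ℕ) (h0 : q.Prime) (h2 : (q + 2).Prime) :
    (q : ℤ) ∈ P2 ∧ (q : ℤ) + 2 ∈ P2 :=
  ⟨mem_P2_lower q h0 h2, mem_P2_upper q h0 h2⟩

lemma S2_subset : ∀ x ∈ S2, x ∈ P2 := by
  have a3 := mem_P2_both 3 (by norm_num) (by norm_num)
  have a5 := mem_P2_both 5 (by norm_num) (by norm_num)
  have a11 := mem_P2_both 11 (by norm_num) (by norm_num)
  have a17 := mem_P2_both 17 (by norm_num) (by norm_num)
  have a29 := mem_P2_both 29 (by norm_num) (by norm_num)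
  have a41 := mem_P2_both 41 (by norm_num) (by norm_num)
  have a59 := mem_P2_both 59 (by norm_num) (by norm_num)
  have a71 := mem_P2_both 71 (by norm_num) (by norm_num)
  have a101 := mem_P2_both 101 (by norm_num) (by norm_num)
  have a107 := mem_P2_both 107 (by norm_num) (by norm_num)
  have a137 := mem_P2_both 137 (by norm_num) (by norm_num)
  have a149 := mem_P2_both 149 (by norm_num) (by norm_num)
  have a197 := mem_P2_both 197 (by norm_num) (by norm_num)
  have a227 := mem_P2_both 227 (by norm_num) (by norm_num)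
  have a239 := mem_P2_both 239 (by norm_num) (by norm_num)
  have a269 := mem_P2_both 269 (by norm_num) (by norm_num)
  have a347 := mem_P2_both 347 (by norm_num) (by norm_num)
  have a431 := mem_P2_both 431 (by norm_num) (by norm_num)
  have a569 := mem_P2_both 569 (by norm_num) (by norm_num)
  norm_num at a3 a5 a11 a17 a29 a41 a59 a71 a101 a107 a137 a149 a197 a227 a239 a269 a347 a431 a569
  intro x hx
  simp only [S2, Finset.mem_insert, Finset.mem_singleton] at hx
  rcases hx with h | h | h | h | h | h | h | h | h | h | h | h | h | h | h | h | h | h | h | h |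
    h | h | h | h | h | h | h | h | h <;> subst h <;> tauto

lemma P4_subset_P2 : ∀ x ∈ P4, x ∈ P2 := by
  rintro x ⟨q, h0, h2, h6, h8, hx | hx | hx | hx⟩ <;> subst hx
  · exact mem_P2_lower q h0 h2
  · exact mem_P2_upper q h0 h2
  · have := mem_P2_lower (q + 6) h6 h8
    push_cast at this
    exact this
  · have := mem_P2_upper (q + 6) h6 h8
    push_cast at this
    rwa [add_assoc] at this

lemma S4_card : S4.card = 30 := by decide

lemma S2_card : S2.card = 29 := by decide

/-- For a prime `p > 2089` the thirty elements are incongruent. -/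
lemma S4_inj (p : ℕ) (hp : 2089 < p) :
    ∀ x ∈ S4, ∀ y ∈ S4, (x : ZMod p) = (y : ZMod p) → x = y := by
  intro x hx y hy h
  have hb : ∀ z ∈ S4, 0 ≤ z ∧ z ≤ 2089 := by decide
  have h1 := hb x hx
  have h2 := hb y hy
  rw [ZMod.intCast_eq_intCast_iff_dvd_sub] at h
  have h3 : |y - x| < (p : ℤ) := by
    rw [abs_lt]
    constructor <;> omega
  have := Int.eq_zero_of_abs_lt_dvd h h3
  omega

lemma S2_inj : ∀ x ∈ S2, ∀ y ∈ S2, (x : ZMod 29) = (y : ZMod 29) → x = y := by
  decide

/-! ### Existence of the factorials -/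

lemma exists_factorial (X : Set ℤ) (hX : ∀ x ∈ S4, x ∈ X) :
    ∃ N, IsFactorial X 28 N := by
  have hne : X.Nonempty := ⟨5, hX 5 (by decide)⟩
  choose a ha using fun p : ℕ => exists_pOrdering X hne p 28
  refine ⟨_, a, fun p _ => ha p, ?_, rfl⟩
  refine (Set.finite_le_nat 2089).subset ?_
  rintro p ⟨hp, h⟩
  by_contra hlt
  have hlt : 2089 < p := by simpa using hlt
  exact h (nu_eq_one _ _ _ (not_dvd_of_many X p hp 28 S4 hX (by rw [S4_card]; norm_num)
    (S4_inj p hlt) (a p) (ha p) 28 le_rfl))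

/-! ### The prime 29 -/

lemma not_dvd_P4 : ∀ x ∈ P4, ¬ ((29 : ℤ) ∣ x) := by
  rintro x ⟨q, h0, h2, h6, h8, hx | hx | hx | hx⟩ hd <;> subst hx
  · have hd' : 29 ∣ q := by exact_mod_cast hd
    have : 29 = q := (Nat.prime_dvd_prime_iff_eq (by norm_num) h0).mp hd'
    subst this
    norm_num at h6
  · have hd' : 29 ∣ q + 2 := by exact_mod_cast hd
    have : 29 = q + 2 := (Nat.prime_dvd_prime_iff_eq (by norm_num) h2).mp hd'
    obtain rfl : q = 27 := by omega
    norm_num at h0
  · have hd' : 29 ∣ q + 6 := by exact_mod_cast hd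
    have : 29 = q + 6 := (Nat.prime_dvd_prime_iff_eq (by norm_num) h6).mp hd'
    obtain rfl : q = 23 := by omega
    norm_num at h2
  · have hd' : 29 ∣ q + 8 := by exact_mod_cast hd
    have : 29 = q + 8 := (Nat.prime_dvd_prime_iff_eq (by norm_num) h8).mp hd'
    obtain rfl : q = 21 := by omega
    norm_num at h0

/-- Along every 29-ordering of `P4` the product at index 28 is divisible by 29. -/
lemma dvd_P4 (a : ℕ → ℤ) (ha : IsPOrdering P4 29 28 a) :
    (29 : ℤ) ∣ ∏ i ∈ range 28, (a 28 - a i) := by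
  by_contra hnd
  have hpr : Prime (29 : ℤ) := by norm_num
  have : Fact (Nat.Prime 29) := ⟨by norm_num⟩
  -- all of a 0, ..., a 28 are pairwise incongruent
  have hlt : ∀ k ≤ 28, ∀ i < k, (a k : ZMod 29) ≠ (a i : ZMod 29) := by
    intro k hk i hi heq
    have hdk : (29 : ℤ) ∣ ∏ i ∈ range k, (a k - a i) := by
      refine dvd_trans ?_ (Finset.dvd_prod_of_mem _ (Finset.mem_range.mpr hi))
      have := (ZMod.intCast_zmod_eq_zero_iff_dvd (a k - a i) 29)
      push_cast at this
      exact this.mp (by rw [heq, sub_self])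
    have hmin := (ha k hk).2 (a 28) (ha 28 le_rfl).1
    have h0 : ¬ ((29 : ℤ) ∣ ∏ i ∈ range k, (a 28 - a i)) := by
      intro hd
      apply hnd
      refine dvd_trans hd ?_
      apply Finset.prod_dvd_prod_of_subset
      intro j hj
      have := Finset.mem_range.mp hj
      exact Finset.mem_range.mpr (by omega)
    have h1 : emultiplicity ((29 : ℕ) : ℤ) (∏ i ∈ range k, (a 28 - a i)) = 0 :=
      emultiplicity_eq_zero.mpr h0
    rw [h1] at hmin
    have h5 : emultiplicity ((29 : ℕ) : ℤ) (∏ i ∈ range k, (a k - a i)) = 0 :=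
      le_antisymm hmin zero_le
    exact emultiplicity_eq_zero.mp h5 hdk
  have hinj : Set.InjOn (fun i => (a i : ZMod 29)) (range 29 : Set ℕ) := by
    intro i hi j hj h
    have hi' : i < 29 := by simpa using hi
    have hj' : j < 29 := by simpa using hj
    rcases lt_trichotomy i j with hij | hij | hij
    · exact absurd h.symm (hlt j (by omega) i hij)
    · exact hij
    · exact absurd h (hlt i (by omega) j hij)
  have hcard : ((range 29).image (fun i => (a i : ZMod 29))).card = 29 := by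
    rw [Finset.card_image_of_injOn hinj, Finset.card_range]
  have huniv : (range 29).image (fun i => (a i : ZMod 29)) = Finset.univ := by
    apply Finset.eq_univ_of_card
    rw [hcard, ZMod.card]
  have h0 : (0 : ZMod 29) ∈ (range 29).image (fun i => (a i : ZMod 29)) := by
    rw [huniv]; exact Finset.mem_univ _
  obtain ⟨i, hi, hi0⟩ := Finset.mem_image.mp h0
  have hi' : i ≤ 28 := by
    have := Finset.mem_range.mp hi
    omega
  refine not_dvd_P4 (a i) (ha i hi').1 ?_
  exact (ZMod.intCast_zmod_eq_zero_iff_dvd (a i) 29).mp hi0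

/-- Along every 29-ordering of `P2` the product at index 28 is prime to 29. -/
lemma not_dvd_P2 (a : ℕ → ℤ) (ha : IsPOrdering P2 29 28 a) :
    ¬ ((29 : ℤ) ∣ ∏ i ∈ range 28, (a 28 - a i)) := by
  have := not_dvd_of_many P2 29 (by norm_num) 28 S2 S2_subset (by rw [S2_card]; norm_num)
    S2_inj a ha 28 le_rfl
  exact_mod_cast this

lemma factorial_prod {n N : ℕ} {a : ℕ → ℕ → ℤ}
    (hfin : {p : ℕ | p.Prime ∧ nu p n (a p) ≠ 1}.Finite)
    (hN : N = ∏ᶠ (p : ℕ) (_ : p.Prime), nu p n (a p)) :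
    ∀ q : ℕ, q.Prime → (q ∣ N ↔ q ∣ nu q n (a q)) := by
  intro q hq
  have h1 : N = ∏ p ∈ hfin.toFinset, nu p n (a p) := by
    rw [hN]
    refine finprod_mem_eq_prod_of_inter_mulSupport_eq (s := {p : ℕ | p.Prime}) _ ?_
    ext p
    constructor
    · rintro ⟨hp, h⟩
      exact ⟨(Set.Finite.mem_toFinset hfin).mpr ⟨hp, h⟩, h⟩
    · rintro ⟨hp, h⟩
      exact ⟨((Set.Finite.mem_toFinset hfin).mp hp).1, h⟩
  rw [h1, Prime.dvd_finsetProd_iff hq.prime]
  constructor
  · rintro ⟨p, hp, hd⟩
    have hpp : p.Prime := ((Set.Finite.mem_toFinset hfin).mp hp).1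
    have hqp : q ∣ p := by
      unfold nu w at hd
      exact hq.dvd_of_dvd_pow hd
    have : q = p := (Nat.prime_dvd_prime_iff_eq hq hpp).mp hqp
    subst this
    exact hd
  · intro hd
    refine ⟨q, ?_, hd⟩
    rw [Set.Finite.mem_toFinset]
    refine ⟨hq, fun h => ?_⟩
    rw [h] at hd
    exact hq.one_lt.ne' (Nat.dvd_one.mp hd)

lemma predicted_28 : predicted 28 = 3 := by
  have hw : w 3 ((28 : ℕ) : ℤ) = 1 := by
    unfold w
    rw [multiplicity_eq_zero.mpr (by norm_num), pow_zero]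
  unfold predicted
  rw [if_pos (by decide), hw]

/-- The index `n = 28` is admissible (`P4` has more than 28 elements), the factorials
`28!_{P4}` and `28!_{P2}` exist, and whatever `p`-orderings are used to compute them, `29` divides
the first and not the second, so that their ratio is not the predicted value. -/
theorem main :
    ((28 : ℕ) : ℕ∞) < P4.encard ∧ ((28 : ℕ) : ℕ∞) < P2.encard ∧
    (∃ N, IsFactorial P4 28 N) ∧ (∃ N, IsFactorial P2 28 N) ∧
    ∀ N₄ N₂ : ℕ, IsFactorial P4 28 N₄ → IsFactorial P2 28 N₂ →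
      29 ∣ N₄ ∧ ¬ 29 ∣ N₂ ∧ (N₄ : ℚ) / (N₂ : ℚ) ≠ (predicted 28 : ℚ) := by
  have hcard4 : ((28 : ℕ) : ℕ∞) < P4.encard := by
    have h1 : (S4 : Set ℤ).encard ≤ P4.encard := Set.encard_le_encard (fun x hx => S4_subset x hx)
    have h2 : (S4 : Set ℤ).encard = 30 := by
      rw [Set.encard_coe_eq_coe_finsetCard, S4_card]; rfl
    rw [h2] at h1
    refine lt_of_lt_of_le ?_ h1
    exact_mod_cast (by norm_num : (28 : ℕ) < 30)
  have hcard2 : ((28 : ℕ) : ℕ∞) < P2.encard :=
    lt_of_lt_of_le hcard4 (Set.encard_le_encard P4_subset_P2)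
  refine ⟨hcard4, hcard2, exists_factorial P4 S4_subset,
    exists_factorial P2 (fun x hx => P4_subset_P2 x (S4_subset x hx)), ?_⟩
  rintro N₄ N₂ ⟨a, ha, hafin, haN⟩ ⟨b, hb, hbfin, hbN⟩
  have h29 : Nat.Prime 29 := by norm_num
  have h4 : 29 ∣ N₄ := by
    rw [factorial_prod hafin haN 29 h29]
    have hd := dvd_P4 (a 29) (ha 29 h29)
    unfold nu w
    apply dvd_pow_self
    intro h0
    exact multiplicity_eq_zero.mp h0 (by exact_mod_cast hd)
  have h2 : ¬ 29 ∣ N₂ := by
    rw [factorial_prod hbfin hbN 29 h29]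
    rw [nu_eq_one 29 28 (b 29) (by exact_mod_cast not_dvd_P2 (b 29) (hb 29 h29))]
    norm_num
  refine ⟨h4, h2, ?_⟩
  rw [predicted_28]
  intro h
  have hN2 : (N₂ : ℚ) ≠ 0 := by
    intro h0
    have : N₂ = 0 := by exact_mod_cast h0
    exact h2 (this ▸ dvd_zero 29)
  rw [div_eq_iff hN2] at h
  have h' : N₄ = 3 * N₂ := by exact_mod_cast h
  rw [h'] at h4
  rcases (Nat.Prime.dvd_mul h29).mp h4 with h5 | h5
  · norm_num at h5
  · exact h2 h5

end Pool.Agent.Lib.MP_38a930_nt
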